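import Pool.Agent.E8helper92.BP.Main

/-!
# The Bodirsky–Pinsker conjecture reduces to templates with one relation and a `k`-transitive group

For every `k`, Q1 holds for all templates if and only if it holds for the templates `(B; R)` with a single
relation `R` such that: `(B; R)` is a reduct of a countable finitely bounded homogeneous structure `𝔹` whose
automorphism group is `k`-transitive and has no algebraicity (in particular all relations of arity at most
`k` which are first-order definable in `𝔹` are trivial), `𝔹` has injective polymorphisms of every arity, all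
tuples in `R` are injective, and every homomorphism from a countable structure to `(B; R)` can be replaced
by an injective one.

Definitions used from the starting files: `Pool.Agent.W994.AR` (relational structures `Str`, `autGroup`,
`Homogeneous`, `FinitelyBounded`, primitive positive definitions and `PPConstructsK3`, polymorphisms `IsPol`),
`Pool.Agent.H593R3.FBC` (instances `Inst` and `CSP`), `Pool.Agent.NPC` (`InPP`: the decision problem is
decided in polynomial time by a Turing machine in the sense of Mathlib).
-/

set_option autoImplicit false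

namespace Pool.Agent.Results.MP_6ab439_lc.TransitiveSingleRelationH92

open Function Pool.Agent.W994.AR Pool.Agent.NPC
open Pool.Agent.H593R3.FBC (Inst IsInst CSP Rels)

/-- The relations of a structure with `n` relation symbols, as relations between lists. -/
def rels {n : ℕ} {ar : Fin n → ℕ} {A : Type} (𝔸 : Str (Fin n) ar A) : Rels A :=
  fun i l => ∃ (j : Fin n) (v : Fin (ar j) → A), j.1 = i ∧ v ∈ 𝔸 j ∧ List.ofFn v = l

/-- The constraint satisfaction problem of the structure `𝔸`: given a finite structure (with domain
`{0, ..., N - 1}`, given by `N` in unary and the list of its tuples), is there a homomorphism to `𝔸`? -/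
def CSPOf {n : ℕ} {ar : Fin n → ℕ} {A : Type} (𝔸 : Str (Fin n) ar A) (I : Inst) : Prop :=
  CSP (List.ofFn ar) (rels 𝔸) I

/-- `k`-transitivity of a permutation group: any injective `k`-tuple can be mapped to any other. -/
def KTransitive {V : Type} (G : Subgroup (Equiv.Perm V)) (k : ℕ) : Prop :=
  ∀ u v : Fin k → V, Injective u → Injective v → ∃ g ∈ G, ∀ i, g (u i) = v i

/-- No algebraicity: a point outside a finite set `F` has an infinite orbit under the pointwise
stabilizer of `F`. -/
def NoAlgebraicity {V : Type} (G : Subgroup (Equiv.Perm V)) : Prop :=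
  ∀ (F : Finset V) (a : V), a ∉ F → {b | ∃ g ∈ G, (∀ x ∈ F, g x = x) ∧ g a = b}.Infinite

/-- Q1 for all templates: reducts (discarding relations) of countable finitely bounded homogeneous
structures. -/
def Q1 : Prop :=
  ∀ (σ : Type) [Finite σ] (ar : σ → ℕ) (B : Type) [Countable B] (𝔹 : Str σ ar B),
    Homogeneous 𝔹 → FinitelyBounded 𝔹 →
    ∀ (n : ℕ) (s : Fin n → σ), Injective s →
      ¬ PPConstructsK3 (fun i => 𝔹 (s i)) → InPP (CSPOf (fun i => 𝔹 (s i)))

/-- Q1 for the templates `(B; R)`, `R = 𝔹 r`, of the restricted class with the parameter `k`. -/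
def Q1Restricted (k : ℕ) : Prop :=
  ∀ (σ : Type) [Finite σ] (ar : σ → ℕ) (B : Type) [Countable B] (𝔹 : Str σ ar B),
    Homogeneous 𝔹 → FinitelyBounded 𝔹 →
    -- the automorphism group is `k`-transitive and has no algebraicity
    KTransitive (autGroup 𝔹) k → NoAlgebraicity (autGroup 𝔹) →
    -- there are injective polymorphisms of every arity
    (∀ d, 0 < d → ∃ h : (Fin d → B) → B, Injective h ∧ IsPol 𝔹 h) →
    -- the template has the single relation `𝔹 r`, and all tuples in it are injective
    ∀ r : σ, (∀ w ∈ 𝔹 r, Injective w) →
    -- homomorphisms from countable structures `(X; Q)` to the template can be replaced by injective ones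
    (∀ (X : Type) [Countable X] (Q : Set (Fin (ar r) → X)) (φ : X → B),
      (∀ w ∈ Q, (fun j => φ (w j)) ∈ 𝔹 r) →
      ∃ e : X → B, Injective e ∧ ∀ w ∈ Q, (fun j => e (w j)) ∈ 𝔹 r) →
      ¬ PPConstructsK3 (fun _ : Fin 1 => 𝔹 r) → InPP (CSPOf (fun _ : Fin 1 => 𝔹 r))

/-- For every `k`, the conjecture holds for all templates if and only if it holds for the templates of
the restricted class with the parameter `k`. -/
theorem result : ∀ k : ℕ, Q1 ↔ Q1Restricted k := by
  intro k
  constructor
  · intro h σ _ ar B _ 𝔹 h1 h2 _ _ _ r _ _ h3
    exact h σ ar B 𝔹 h1 h2 1 (fun _ => r) (fun _ _ _ => Subsingleton.elim _ _) h3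
  · intro h σ _ ar B _ 𝔹 h1 h2 n s _ h3
    rcases isEmpty_or_nonempty B with hB | hB
    · exact Pool.Agent.E8helper92.BP.csp_empty _
    · obtain ⟨σ', hσ', ar', 𝔹', r, a1, a2, a3, a4, a5, a6, a7, a8, g, hg, hg'⟩ :=
        Pool.Agent.E8helper92.BP.main 𝔹 h1 h2 s k
      have h4 := @h σ' hσ' ar' ℕ _ 𝔹' a1 a2 a3 a4 a5 r a6 a7 (fun h5 => h3 (a8 h5))
      exact InPP.of_poly h4 hg hg'

end Pool.Agent.Results.MP_6ab439_lc.TransitiveSingleRelationH92
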